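import Pool.Agent.Lib_helper1.G5T.Defs

/-!
# MP_022ed3_co, triangular hull: module PER
-/

set_option autoImplicit false

namespace Pool.Agent.G5.Tri

open Pool.Agent.G5.Lower Pool.Agent.G5.Planar Pool.Agent.G5.Core Pool.Agent.G5.Quad
  Pool.Agent.G5.Frame

section tools

variable {s : ℝ} {m : ℕ} {P S T : Finset (ℝ × ℝ)} {a b c : ℝ × ℝ}

/-- a point strictly inside a triangle of points of `S` is not extreme -/
lemma per_not_ext {p q r z : ℝ × ℝ} (hp : p ∈ S) (hq : q ∈ S) (hr : r ∈ S)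
    (h1 : 0 < D s p q z) (h2 : 0 < D s q r z) (h3 : 0 < D s r p z) : ¬ ExtP S z := by
  intro hz
  unfold ExtP at hz
  rw [mem_extremePoints] at hz
  set α := D s q r z with hα
  set β := D s r p z with hβ
  set γ := D s p q z with hγ
  have hbg : 0 < β + γ := by linarith
  have hΔ : 0 < α + (β + γ) := by linarith
  set w : ℝ × ℝ := (β / (β + γ)) • q + (γ / (β + γ)) • r with hw
  have hpK : p ∈ convexHull ℝ (S : Set (ℝ × ℝ)) := subset_convexHull ℝ _ hp
  have hqK : q ∈ convexHull ℝ (S : Set (ℝ × ℝ)) := subset_convexHull ℝ _ hq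
  have hrK : r ∈ convexHull ℝ (S : Set (ℝ × ℝ)) := subset_convexHull ℝ _ hr
  have hwK : w ∈ convexHull ℝ (S : Set (ℝ × ℝ)) := by
    apply (convex_convexHull ℝ _) hqK hrK (by positivity) (by positivity)
    field_simp
  have hid1 : α * p.1 + β * q.1 + γ * r.1 = (α + (β + γ)) * z.1 := by
    simp only [hα, hβ, hγ, D, dt]; ring
  have hid2 : α * p.2 + β * q.2 + γ * r.2 = (α + (β + γ)) * z.2 := by
    simp only [hα, hβ, hγ, D, dt]; ring
  have hzw : z ∈ openSegment ℝ p w := by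
    refine ⟨α / (α + (β + γ)), (β + γ) / (α + (β + γ)), by positivity, by positivity, ?_, ?_⟩
    · field_simp
    · apply Prod.ext
      · simp only [hw, Prod.fst_add, Prod.smul_fst, smul_eq_mul]
        field_simp
        linarith
      · simp only [hw, Prod.snd_add, Prod.smul_snd, smul_eq_mul]
        field_simp
        linarith
  have := (hz.2 p hpK w hwK hzw).1
  subst this
  simp [hγ] at h1

lemma per_ncard (F : Finset (ℝ × ℝ)) (H : ∀ z, ExtP T z → z ∈ F) :
    (Set.extremePoints ℝ (convexHull ℝ (T : Set (ℝ × ℝ)))).ncard ≤ F.card := by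
  rw [← Set.ncard_coe_finset F]
  apply Set.ncard_le_ncard
  · intro x hx; exact H x hx
  · exact F.finite_toSet

lemma per_coord {o : ℝ × ℝ} {s' Δ : ℝ} (hΔ : 0 < Δ) {X Y : ℝ × ℝ → ℝ}
    (hp : ∀ x ∈ P, x ≠ o → 0 < X x + Y x)
    (hid : ∀ x y, D s' o x y * Δ = X x * Y y - Y x * X y) :
    ∀ x ∈ P, ∀ y ∈ P, x ≠ o → y ≠ o →
      (0 < D s' o x y ↔ Y x / (X x + Y x) < Y y / (X y + Y y)) := by
  intro x hx y hy hxo hyo
  have h1 := hp x hx hxo
  have h2 := hp y hy hyo
  rw [div_lt_div_iff₀ h1 h2]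
  have h3 := hid x y
  constructor
  · intro h
    have := mul_pos h hΔ
    nlinarith
  · intro h
    have h4 : 0 < D s' o x y * Δ := by rw [h3]; nlinarith
    exact (pos_iff_pos_of_mul_pos h4).2 hΔ

/-- real coordinates for the three orders -/
structure PerCo (s : ℝ) (P : Finset (ℝ × ℝ)) (a b c : ℝ × ℝ) (fa fb fc : ℝ × ℝ → ℝ) : Prop where
  ha : ∀ x ∈ P, ∀ y ∈ P, x ≠ a → y ≠ a → (0 < D s a x y ↔ fa x < fa y)
  hb : ∀ x ∈ P, ∀ y ∈ P, x ≠ b → y ≠ b → (0 < D s b x y ↔ fb x < fb y)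
  hc : ∀ x ∈ P, ∀ y ∈ P, x ≠ c → y ≠ c → (D s c x y < 0 ↔ fc x < fc y)
  ia : ∀ x ∈ P, ∀ y ∈ P, x ≠ a → y ≠ a → fa x = fa y → x = y
  ib : ∀ x ∈ P, ∀ y ∈ P, x ≠ b → y ≠ b → fb x = fb y → x = y
  ic : ∀ x ∈ P, ∀ y ∈ P, x ≠ c → y ≠ c → fc x = fc y → x = y
  ceva : ∀ x ∈ P, ∀ y ∈ P, x ≠ a → x ≠ b → x ≠ c → y ≠ a → y ≠ b → y ≠ c →
    fa x < fa y → fb x < fb y → fc x < fc y
  ab : ∀ x ∈ P, x ≠ a → x ≠ b → fa b < fa x
  ac : ∀ x ∈ P, x ≠ a → x ≠ c → fa x < fa c
  bc : ∀ x ∈ P, x ≠ b → x ≠ c → fb c < fb x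
  ba : ∀ x ∈ P, x ≠ b → x ≠ a → fb x < fb a
  cb : ∀ x ∈ P, x ≠ c → x ≠ b → fc b < fc x
  ca : ∀ x ∈ P, x ≠ c → x ≠ a → fc x < fc a

lemma exists_perCo (h : Conf3 s P a b c) : ∃ fa fb fc, PerCo s P a b c fa fb fc := by
  set α : ℝ × ℝ → ℝ := fun x => D s b c x with hα
  set β : ℝ × ℝ → ℝ := fun x => D s c a x with hβ
  set γ : ℝ × ℝ → ℝ := fun x => D s a b x with hγ
  set Δ := D s a b c with hΔdef
  have hΔ : 0 < Δ := h.eab c h.hc h.ca h.bc.symm
  have hαa : α a = Δ := by simp only [hα, hΔdef]; exact D_cyc s a b c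
  have hβb : β b = Δ := by simp only [hβ, hΔdef]; exact D_cyc' s a b c
  have hγc : γ c = Δ := rfl
  have hαb : α b = 0 := by simp [hα]
  have hαc : α c = 0 := by simp [hα]
  have hβc : β c = 0 := by simp [hβ]
  have hβa : β a = 0 := by simp [hβ]
  have hγa : γ a = 0 := by simp [hγ]
  have hγb : γ b = 0 := by simp [hγ]
  have hα0 : ∀ x ∈ P, 0 ≤ α x := by
    intro x hx
    by_cases h1 : x = b
    · rw [h1, hαb]
    by_cases h2 : x = c
    · rw [h2, hαc]
    exact (h.ebc x hx h1 h2).le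
  have hβ0 : ∀ x ∈ P, 0 ≤ β x := by
    intro x hx
    by_cases h1 : x = c
    · rw [h1, hβc]
    by_cases h2 : x = a
    · rw [h2, hβa]
    exact (h.eca x hx h1 h2).le
  have hγ0 : ∀ x ∈ P, 0 ≤ γ x := by
    intro x hx
    by_cases h1 : x = a
    · rw [h1, hγa]
    by_cases h2 : x = b
    · rw [h2, hγb]
    exact (h.eab x hx h1 h2).le
  have pa : ∀ x ∈ P, x ≠ a → 0 < β x + γ x := by
    intro x hx hxa
    by_cases h1 : x = b
    · rw [h1, hβb, hγb]; linarith
    have := h.eab x hx hxa h1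
    have h2 : 0 < γ x := this
    linarith [hβ0 x hx]
  have pb : ∀ x ∈ P, x ≠ b → 0 < γ x + α x := by
    intro x hx hxb
    by_cases h1 : x = c
    · rw [h1, hγc, hαc]; linarith
    have h2 : 0 < α x := h.ebc x hx hxb h1
    linarith [hγ0 x hx]
  have pc : ∀ x ∈ P, x ≠ c → 0 < β x + α x := by
    intro x hx hxc
    by_cases h1 : x = a
    · rw [h1, hβa, hαa]; linarith
    have h2 : 0 < β x := h.eca x hx hxc h1
    linarith [hα0 x hx]
  have ca := per_coord (P := P) (o := a) (s' := s) hΔ pa (by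
    intro x y; simp only [hβ, hγ, hΔdef, D, dt]; ring)
  have cb := per_coord (P := P) (o := b) (s' := s) hΔ pb (by
    intro x y; simp only [hα, hγ, hΔdef, D, dt]; ring)
  have cc := per_coord (P := P) (o := c) (s' := -s) hΔ pc (by
    intro x y; simp only [hα, hβ, hΔdef, D, dt]; ring)
  have cc' : ∀ x ∈ P, ∀ y ∈ P, x ≠ c → y ≠ c →
      (D s c x y < 0 ↔ α x / (β x + α x) < α y / (β y + α y)) := by
    intro x hx y hy h1 h2
    rw [← cc x hx y hy h1 h2, D_neg]
    constructor <;> intro h <;> linarith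
  -- injectivity
  have inj : ∀ {o : ℝ × ℝ} {f : ℝ × ℝ → ℝ} {s' : ℝ}, s' ≠ 0 → o ∈ P →
      (∀ x ∈ P, ∀ y ∈ P, x ≠ o → y ≠ o → (0 < D s' o x y ↔ f x < f y)) →
      ∀ x ∈ P, ∀ y ∈ P, x ≠ o → y ≠ o → f x = f y → x = y := by
    intro o f s' hs' ho hf x hx y hy hxo hyo hxy
    by_contra hne
    have h1 := hf x hx y hy hxo hyo
    have h2 := hf y hy x hx hyo hxo
    have h3 := h.gen.D_ne hs' ho hx hy hxo.symm hyo.symm hne
    rw [D_swap'] at h2
    rcases lt_or_gt_of_ne h3 with h4 | h4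
    · have := h2.1 (by linarith)
      linarith
    · have := h1.1 h4
      linarith
  refine ⟨_, _, _, ⟨ca, cb, cc', ?_, ?_, ?_, ?_, ?_, ?_, ?_, ?_, ?_, ?_⟩⟩
  · exact inj h.hs h.ha ca
  · exact inj h.hs h.hb cb
  · exact inj (neg_ne_zero.2 h.hs) h.hc cc
  · intro x hx y hy hxa hxb hxc hya hyb hyc h1 h2
    have g1 := (ca x hx y hy hxa hya).2 h1
    have g2 := (cb x hx y hy hxb hyb).2 h2
    rw [← cc' x hx y hy hxc hyc]
    have hid : D s b c x * D s a x y + D s c a x * D s b x y + D s a b x * D s c x y = 0 := by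
      simp only [D, dt]; ring
    have e1 := mul_pos (h.ebc x hx hxb hxc) g1
    have e2 := mul_pos (h.eca x hx hxc hxa) g2
    have e3 : D s a b x * D s c x y < 0 := by linarith
    have e4 := h.eab x hx hxa hxb
    by_contra h5
    have := mul_nonneg e4.le (not_lt.1 h5)
    linarith
  · intro x hx h1 h2
    rw [← ca b h.hb x hx h.ab.symm h1]
    exact h.eab x hx h1 h2
  · intro x hx h1 h2
    rw [← ca x hx c h.hc h1 h.ca]
    have := h.eca x hx h2 h1
    rw [← D_cyc']; exact this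
  · intro x hx h1 h2
    rw [← cb c h.hc x hx h.bc.symm h1]
    exact h.ebc x hx h1 h2
  · intro x hx h1 h2
    rw [← cb x hx a h.ha h1 h.ab]
    have := h.eab x hx h2 h1
    rw [← D_cyc']; exact this
  · intro x hx h1 h2
    rw [← cc' b h.hb x hx h.bc h1]
    have := h.ebc x hx h2 h1
    rw [D_swap]; linarith
  · intro x hx h1 h2
    rw [← cc' x hx a h.ha h1 h.ca.symm]
    have := h.eca x hx h1 h2
    rw [D_swap']; linarith

lemma per_ext_min {o e : ℝ × ℝ} (he : e ∈ S) (hne : e ≠ o)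
    (H : ∀ z ∈ S, z ≠ o → z ≠ e → 0 < D s o e z) : ExtP S e := by
  classical
  have h1 : ExtP (insert o S) e := edge_ext' (s := s) (Finset.mem_insert_self o S)
    (Finset.mem_insert_of_mem he) hne.symm (by
      intro z hz h1 h2
      rcases Finset.mem_insert.1 hz with h3 | h3
      · exact absurd h3 h1
      · exact H z h3 h1 h2)
  exact h1.mono he (Finset.subset_insert _ _)

lemma per_ext_max {o e : ℝ × ℝ} (he : e ∈ S) (hne : e ≠ o)
    (H : ∀ z ∈ S, z ≠ o → z ≠ e → 0 < D s o z e) : ExtP S e := by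
  classical
  have h1 : ExtP (insert o S) e := edge_ext (s := s) (Finset.mem_insert_of_mem he)
    (Finset.mem_insert_self o S) hne (by
      intro z hz h1 h2
      rcases Finset.mem_insert.1 hz with h3 | h3
      · exact absurd h3 h2
      · have := H z h3 h2 h1
        rw [← D_cyc]; exact this)
  exact h1.mono he (Finset.subset_insert _ _)

section co

variable {fa fb fc : ℝ × ℝ → ℝ}

lemma PerCo.min_a (hf : PerCo s P a b c fa fb fc) (hS : S ⊆ P) {e : ℝ × ℝ} (he : e ∈ S)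
    (hea : e ≠ a) (H : ∀ z ∈ S, z ≠ a → fa e ≤ fa z) : ExtP S e := by
  apply per_ext_min (s := s) he hea
  intro z hz h1 h2
  rw [hf.ha e (hS he) z (hS hz) hea h1]
  exact lt_of_le_of_ne (H z hz h1) fun h => h2 (hf.ia e (hS he) z (hS hz) hea h1 h).symm

lemma PerCo.max_a (hf : PerCo s P a b c fa fb fc) (hS : S ⊆ P) {e : ℝ × ℝ} (he : e ∈ S)
    (hea : e ≠ a) (H : ∀ z ∈ S, z ≠ a → fa z ≤ fa e) : ExtP S e := by
  apply per_ext_max (s := s) he hea
  intro z hz h1 h2
  rw [hf.ha z (hS hz) e (hS he) h1 hea]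
  exact lt_of_le_of_ne (H z hz h1) fun h => h2 (hf.ia z (hS hz) e (hS he) h1 hea h)

lemma PerCo.min_b (hf : PerCo s P a b c fa fb fc) (hS : S ⊆ P) {e : ℝ × ℝ} (he : e ∈ S)
    (hea : e ≠ b) (H : ∀ z ∈ S, z ≠ b → fb e ≤ fb z) : ExtP S e := by
  apply per_ext_min (s := s) he hea
  intro z hz h1 h2
  rw [hf.hb e (hS he) z (hS hz) hea h1]
  exact lt_of_le_of_ne (H z hz h1) fun h => h2 (hf.ib e (hS he) z (hS hz) hea h1 h).symm

lemma PerCo.max_b (hf : PerCo s P a b c fa fb fc) (hS : S ⊆ P) {e : ℝ × ℝ} (he : e ∈ S)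
    (hea : e ≠ b) (H : ∀ z ∈ S, z ≠ b → fb z ≤ fb e) : ExtP S e := by
  apply per_ext_max (s := s) he hea
  intro z hz h1 h2
  rw [hf.hb z (hS hz) e (hS he) h1 hea]
  exact lt_of_le_of_ne (H z hz h1) fun h => h2 (hf.ib z (hS hz) e (hS he) h1 hea h)

lemma PerCo.min_c (hf : PerCo s P a b c fa fb fc) (hS : S ⊆ P) {e : ℝ × ℝ} (he : e ∈ S)
    (hea : e ≠ c) (H : ∀ z ∈ S, z ≠ c → fc e ≤ fc z) : ExtP S e := by
  apply per_ext_min (s := -s) he hea
  intro z hz h1 h2
  rw [D_neg]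
  have : D s c e z < 0 := by
    rw [hf.hc e (hS he) z (hS hz) hea h1]
    exact lt_of_le_of_ne (H z hz h1) fun h => h2 (hf.ic e (hS he) z (hS hz) hea h1 h).symm
  linarith

lemma PerCo.max_c (hf : PerCo s P a b c fa fb fc) (hS : S ⊆ P) {e : ℝ × ℝ} (he : e ∈ S)
    (hea : e ≠ c) (H : ∀ z ∈ S, z ≠ c → fc z ≤ fc e) : ExtP S e := by
  apply per_ext_max (s := -s) he hea
  intro z hz h1 h2
  rw [D_neg]
  have : D s c z e < 0 := by
    rw [hf.hc z (hS hz) e (hS he) h1 hea]
    exact lt_of_le_of_ne (H z hz h1) fun h => h2 (hf.ic z (hS hz) e (hS he) h1 hea h)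
  linarith

lemma per_argmax (f : ℝ × ℝ → ℝ) {o : ℝ × ℝ} (h : ∃ z ∈ S, z ≠ o) :
    ∃ e ∈ S, e ≠ o ∧ ∀ z ∈ S, z ≠ o → f z ≤ f e := by
  classical
  obtain ⟨z, hz, hzo⟩ := h
  obtain ⟨e, he, hmax⟩ := (S.erase o).exists_max_image f
    ⟨z, Finset.mem_erase.2 ⟨hzo, hz⟩⟩
  rw [Finset.mem_erase] at he
  exact ⟨e, he.2, he.1, fun z hz h => hmax z (Finset.mem_erase.2 ⟨h, hz⟩)⟩

lemma per_argmin (f : ℝ × ℝ → ℝ) {o : ℝ × ℝ} (h : ∃ z ∈ S, z ≠ o) :
    ∃ e ∈ S, e ≠ o ∧ ∀ z ∈ S, z ≠ o → f e ≤ f z := by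
  obtain ⟨e, he, heo, hmax⟩ := per_argmax (fun z => - f z) h
  exact ⟨e, he, heo, fun z hz h => by have := hmax z hz h; linarith⟩

end co

/-- transitivity around `o` inside the half plane to the left of `o u` -/
lemma per_tr {o u x y z : ℝ × ℝ} (hx : 0 < D s o u x) (hy : 0 < D s o u y)
    (hz : 0 < D s o u z) (h1 : 0 < D s o x y) (h2 : 0 < D s o y z) : 0 < D s o x z := by
  have h : D s o u y * D s o x z = D s o u x * D s o y z + D s o u z * D s o x y := by
    simp only [D, dt]; ring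
  have h3 := mul_pos hx h2
  have h4 := mul_pos hz h1
  have h5 : 0 < D s o u y * D s o x z := by linarith
  exact (pos_iff_pos_of_mul_pos h5).1 hy

end tools

section lemA

variable {s : ℝ} {m : ℕ} {P T : Finset (ℝ × ℝ)} {a b c : ℝ × ℝ}

lemma per_pick (h3 : 3 ≤ T.card) (x y : ℝ × ℝ) : ∃ z ∈ T, z ≠ x ∧ z ≠ y := by
  classical
  by_contra hcon
  push Not at hcon
  have : T ⊆ {x, y} := by
    intro z hz
    simp only [Finset.mem_insert, Finset.mem_singleton]
    by_cases h : z = x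
    · exact Or.inl h
    · exact Or.inr (hcon z hz h)
  have h1 := Finset.card_le_card this
  have h2 := Finset.card_le_two (a := x) (b := y)
  omega

/-- the first five hull vertices of a fat set containing `a` but not `c` -/
lemma per_chain (h : Setting s m P a b c) (hT : InF m P T) (ha : a ∈ T) (hc : c ∉ T) :
    ∃ v2 ∈ T, ∃ v3 ∈ T, ∃ v4 ∈ T, ∃ v5 ∈ T, [a, v2, v3, v4, v5].Nodup ∧
      (∀ t ∈ T, t ≠ a → t ≠ v2 → 0 < D s a v2 t) ∧
      (∀ t ∈ T, t ≠ v2 → t ≠ v3 → 0 < D s v2 v3 t) ∧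
      (∀ t ∈ T, t ≠ v3 → t ≠ v4 → 0 < D s v3 v4 t) ∧
      (∀ t ∈ T, t ≠ v4 → t ≠ v5 → 0 < D s v4 v5 t) := by
  classical
  have hs := h.conf.hs
  have hgT : Gen T := h.conf.gen.mono hT.sub
  have hcard : 5 ≤ T.card := by rw [hT.card]; exact h.hm
  have pick := per_pick (T := T) (by omega : 3 ≤ T.card)
  have hext : ExtP T a := h.conf.exta.mono ha hT.sub
  have hfat := hT.fat
  -- v2
  have hsub : insert c T ⊆ P := by
    intro x hx
    rcases Finset.mem_insert.1 hx with rfl | hx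
    · exact h.conf.hc
    · exact hT.sub hx
  obtain ⟨v2, hv2, h2a, e1'⟩ := next_vertex (h.conf.gen.mono hsub) hs
    (Finset.mem_insert_of_mem ha) (Finset.mem_insert_self c T) h.conf.ca.symm
    (fun w hw hwa hwc => h.conf.eca w (hsub hw) hwc hwa)
  have h2c : v2 ≠ c := by
    rintro rfl
    obtain ⟨w, hw, hwa, hwc⟩ := pick a v2
    have h1 := e1' w (Finset.mem_insert_of_mem hw) hwa hwc
    have h2 := h.conf.eca w (hT.sub hw) hwc hwa
    rw [D_swap] at h2
    linarith
  have hv2T : v2 ∈ T := by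
    rcases Finset.mem_insert.1 hv2 with h1 | h1
    · exact absurd h1 h2c
    · exact h1
  have e1 : ∀ t ∈ T, t ≠ a → t ≠ v2 → 0 < D s a v2 t := fun t ht =>
    e1' t (Finset.mem_insert_of_mem ht)
  -- v3
  obtain ⟨v3, hv3, h32, e2⟩ := next_vertex hgT hs hv2T ha h2a
    (fun w hw h1 h2 => e1 w hw h2 h1)
  have h3a : v3 ≠ a := by
    rintro rfl
    obtain ⟨w, hw, hwa, hwc⟩ := pick v3 v2
    have g1 := e1 w hw hwa hwc
    have g2 := e2 w hw hwc hwa
    rw [D_swap] at g2
    linarith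
  -- v4
  obtain ⟨v4, hv4, h43, e3⟩ := next_vertex hgT hs hv3 hv2T h32
    (fun w hw h1 h2 => e2 w hw h2 h1)
  have h42 : v4 ≠ v2 := by
    rintro rfl
    obtain ⟨w, hw, hwa, hwc⟩ := pick v3 v4
    have g1 := e3 w hw hwa hwc
    have g2 := e2 w hw hwc hwa
    rw [D_swap] at g2
    linarith
  have h4a : v4 ≠ a := by
    rintro rfl
    have := per_ncard (T := T) {v4, v2, v3} (by
      intro z hz
      by_contra hcon
      simp only [Finset.mem_insert, Finset.mem_singleton, not_or] at hcon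
      exact per_not_ext (s := s) ha hv2T hv3 (e1 z hz.mem hcon.1 hcon.2.1)
        (e2 z hz.mem hcon.2.1 hcon.2.2) (e3 z hz.mem hcon.2.2 hcon.1) hz)
    have h3 := Finset.card_le_three (a := v4) (b := v2) (c := v3)
    omega
  -- v5
  obtain ⟨v5, hv5, h54, e4⟩ := next_vertex hgT hs hv4 hv3 h43
    (fun w hw h1 h2 => e3 w hw h2 h1)
  have h53 : v5 ≠ v3 := by
    rintro rfl
    obtain ⟨w, hw, hwa, hwc⟩ := pick v4 v5
    have g1 := e4 w hw hwa hwc
    have g2 := e3 w hw hwc hwa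
    rw [D_swap] at g2
    linarith
  have h52 : v5 ≠ v2 := by
    rintro rfl
    exact per_not_ext (s := s) hv2T hv3 hv4 (e2 a ha h2a.symm h3a.symm)
      (e3 a ha h3a.symm h4a.symm) (e4 a ha h4a.symm h2a.symm) hext
  have h5a : v5 ≠ a := by
    rintro rfl
    have := per_ncard (T := T) {v5, v2, v3, v4} (by
      intro z hz
      by_contra hcon
      simp only [Finset.mem_insert, Finset.mem_singleton, not_or] at hcon
      obtain ⟨z1, z2, z3, z4⟩ := hcon
      have hne : D s v5 v3 z ≠ 0 := hgT.D_ne hs ha hv3 hz.mem h3a.symm (Ne.symm z1) (Ne.symm z3)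
      rcases lt_or_gt_of_ne hne with h6 | h6
      · exact per_not_ext (s := s) ha hv2T hv3 (e1 z hz.mem z1 z2)
          (e2 z hz.mem z2 z3) (by rw [D_swap]; linarith) hz
      · exact per_not_ext (s := s) ha hv3 hv4 h6 (e3 z hz.mem z3 z4)
          (e4 z hz.mem z4 z1) hz)
    have h3 := Finset.card_le_four (a := v5) (b := v2) (c := v3) (d := v4)
    omega
  refine ⟨v2, hv2T, v3, hv3, v4, hv4, v5, hv5, ?_, e1, e2, e3, e4⟩
  simp [h2a.symm, h3a.symm, h4a.symm, h5a.symm, h32.symm, h42.symm, h52.symm, h43.symm,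
    h53.symm, h54.symm]

/-- data of Lemma A -/
structure ADat (s : ℝ) (P T : Finset (ℝ × ℝ)) (a b c L R : ℝ × ℝ) : Prop where
  aT : a ∈ T
  bT : b ∉ T
  cT : c ∉ T
  hL : L ∈ T
  hR : R ∈ T
  La : L ≠ a
  Ra : R ≠ a
  a1 : ∀ x ∈ P, x ∉ T → x ≠ b → 0 < D s b x L
  a2 : ∀ x ∈ P, x ∉ T → x ≠ c → D s c x R < 0
  a3 : ∀ x ∈ T, ¬ (0 < D s b x L ∧ D s c x R < 0)
  a4 : 0 < D s b R L
  a5 : D s c L R < 0

lemma per_A (h : Setting s m P a b c) (hT : InF m P T) (ha : a ∈ T) (hb : b ∉ T) (hc : c ∉ T) :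
    ∃ L R, ADat s P T a b c L R := by
  classical
  obtain ⟨v2, hv2, L, hL, R, hR, v5, hv5, hnd, e1, e2, e3, e4⟩ := per_chain h hT ha hc
  obtain ⟨fa, fb, fc, hf⟩ := exists_perCo h.conf
  have hs := h.conf.hs
  have hnd' := hnd
  simp only [List.nodup_cons, List.mem_cons, List.not_mem_nil, or_false, not_or,
    List.nodup_nil, not_false_eq_true, and_true] at hnd'
  obtain ⟨⟨na2, naL, naR, na5⟩, ⟨n2L, n2R, n25⟩, ⟨nLR, nL5⟩, nR5⟩ := hnd'
  have hLP := hT.sub hL
  have hRP := hT.sub hR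
  have hLb : L ≠ b := fun e => hb (e ▸ hL)
  have hLc : L ≠ c := fun e => hc (e ▸ hL)
  have hRb : R ≠ b := fun e => hb (e ▸ hR)
  have hRc : R ≠ c := fun e => hc (e ▸ hR)
  -- claim 1
  have claim : ∀ x ∈ P, x ∉ T → D s L R x < 0 := by
    intro x hx hxT
    have hxL : x ≠ L := fun e => hxT (e ▸ hL)
    have hxR : x ≠ R := fun e => hxT (e ▸ hR)
    have hx2 : x ≠ v2 := fun e => hxT (e ▸ hv2)
    have hx5 : x ≠ v5 := fun e => hxT (e ▸ hv5)
    have hxa : x ≠ a := fun e => hxT (e ▸ ha)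
    by_contra hcon
    have hne := h.conf.gen.D_ne hs hLP hRP hx nLR hxL.symm hxR.symm
    have hpos : 0 < D s L R x := lt_of_le_of_ne (not_lt.1 hcon) hne.symm
    have hSP : insert x T ⊆ P := by
      intro z hz
      rcases Finset.mem_insert.1 hz with rfl | hz
      · exact hx
      · exact hT.sub hz
    have hSc : m + 1 ≤ (insert x T).card := by
      rw [Finset.card_insert_of_notMem hxT, hT.card]
    have hmem : ∀ {z}, z ∈ T → z ∈ insert x T := fun hz => Finset.mem_insert_of_mem hz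
    have xe := hT.closed x hx hxT
    have ae : ExtP (insert x T) a := h.conf.exta.mono (hmem ha) hSP
    have hside : ∀ {p q : ℝ × ℝ}, (∀ t ∈ T, t ≠ p → t ≠ q → 0 < D s p q t) → 0 < D s p q x →
        ∀ z ∈ insert x T, z ≠ p → z ≠ q → 0 < D s p q z := by
      intro p q hpq hx' z hz h1 h2
      rcases Finset.mem_insert.1 hz with rfl | hz
      · exact hx'
      · exact hpq z hz h1 h2
    have Le : ExtP (insert x T) L := edge_ext (hmem hL) (hmem hR) nLR (hside e3 hpos)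
    have Re : ExtP (insert x T) R := edge_ext' (hmem hL) (hmem hR) nLR (hside e3 hpos)
    have n1 : D s v2 L x < 0 := by
      by_contra h1
      have hne1 := h.conf.gen.D_ne hs (hT.sub hv2) hLP hx n2L hx2.symm hxL.symm
      have hp1 : 0 < D s v2 L x := lt_of_le_of_ne (not_lt.1 h1) hne1.symm
      have v2e : ExtP (insert x T) v2 := edge_ext (hmem hv2) (hmem hL) n2L (hside e2 hp1)
      exact h.thin.five hSP hSc ae v2e Le Re xe (by
        simp [na2, naL, naR, hxa.symm, n2L, n2R, hx2.symm, nLR, hxL.symm, hxR.symm])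
    have n2 : D s R v5 x < 0 := by
      by_contra h1
      have hne1 := h.conf.gen.D_ne hs hRP (hT.sub hv5) hx nR5 hxR.symm hx5.symm
      have hp1 : 0 < D s R v5 x := lt_of_le_of_ne (not_lt.1 h1) hne1.symm
      have v5e : ExtP (insert x T) v5 := edge_ext' (hmem hR) (hmem hv5) nR5 (hside e4 hp1)
      exact h.thin.five hSP hSc ae Le Re v5e xe (by
        simp [naL, naR, na5, hxa.symm, nLR, nL5, nR5, hxL.symm, hxR.symm, hx5.symm])
    -- a is inside the triangle x, L, R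
    have t1 : 0 < D s L a x := by
      refine per_tr (o := L) (u := R) (x := a) (y := v2) (z := x)
        (e3 a ha naL naR) (e3 v2 hv2 n2L n2R) hpos ?_ ?_
      · exact p1 (e2 a ha na2 naL)
      · rw [D_swap]; linarith
    have t2 : 0 < D s R x a := by
      refine trans_pos (a := L) (b := R) hpos (e3 v5 hv5 (Ne.symm nL5) (Ne.symm nR5))
        (e3 a ha naL naR).le ?_ (e4 a ha naR na5)
      rw [D_swap']; linarith
    have o1 : fa x < fa L := by
      rw [← hf.ha x hx L hLP hxa (Ne.symm naL)]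
      exact p1 t1
    have o2 : fa L < fa R := by
      rw [← hf.ha L hLP R hRP (Ne.symm naL) (Ne.symm naR)]
      exact p2 (e3 a ha naL naR)
    have o3 : fa R < fa x := by
      rw [← hf.ha R hRP x hx (Ne.symm naR) hxa]
      exact p2 t2
    linarith
  -- the set `O ∪ {L, R}`
  set O := P \ T with hO
  have hOc : O.card = m + 1 := by
    rw [hO, Finset.card_sdiff_of_subset hT.sub, h.card, hT.card]; omega
  set S := insert L (insert R O) with hS
  have hSP : S ⊆ P := by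
    intro z hz
    rw [hS, Finset.mem_insert, Finset.mem_insert] at hz
    rcases hz with rfl | rfl | hz
    · exact hLP
    · exact hRP
    · exact (Finset.mem_sdiff.1 hz).1
  have hOS : O ⊆ S := fun z hz => Finset.mem_insert_of_mem (Finset.mem_insert_of_mem hz)
  have hSc : m + 1 ≤ S.card := by
    rw [← hOc]; exact Finset.card_le_card hOS
  have hbO : b ∈ O := Finset.mem_sdiff.2 ⟨h.conf.hb, hb⟩
  have hcO : c ∈ O := Finset.mem_sdiff.2 ⟨h.conf.hc, hc⟩
  have hLS : L ∈ S := Finset.mem_insert_self _ _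
  have hRS : R ∈ S := Finset.mem_insert_of_mem (Finset.mem_insert_self _ _)
  have be' : ExtP S b := h.conf.extb.mono (hOS hbO) hSP
  have ce' : ExtP S c := h.conf.extc.mono (hOS hcO) hSP
  have hRL : ∀ z ∈ S, z ≠ R → z ≠ L → 0 < D s R L z := by
    intro z hz h1 h2
    rw [hS, Finset.mem_insert, Finset.mem_insert] at hz
    rcases hz with h3 | h3 | h3
    · exact absurd h3 h2
    · exact absurd h3 h1
    · have h4 := Finset.mem_sdiff.1 h3
      have := claim z h4.1 h4.2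
      rw [D_swap]; linarith
  have Re' : ExtP S R := edge_ext hRS hLS (Ne.symm nLR) hRL
  have Le' : ExtP S L := edge_ext' hRS hLS (Ne.symm nLR) hRL
  have hbRL : fb R < fb L := by
    rw [← hf.hb R hRP L hLP hRb hLb]
    have := claim b h.conf.hb hb
    have h7 : D s b R L = - D s L R b := by
      rw [D_cyc' s R L b, D_swap]
    rw [h7]; linarith
  have hcLR : fc L < fc R := by
    rw [← hf.hc L hLP R hRP hLc hRc]
    have := claim c h.conf.hc hc
    have h7 : D s c L R = D s L R c := D_cyc' s L R c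
    rw [h7]; exact this
  have bc := h.conf.bc
  have maxb : ∀ z ∈ S, z ≠ b → fb z ≤ fb L := by
    obtain ⟨e, he, heb, hmax⟩ := per_argmax fb ⟨L, hLS, hLb⟩
    have hee := hf.max_b hSP he heb hmax
    have h1 : e = L := by
      by_contra heL
      have hec : e ≠ c := by
        rintro rfl
        have h2 := hmax L hLS hLb
        have h3 := hf.bc L hLP hLb hLc
        linarith
      have heR : e ≠ R := by
        rintro rfl
        have h2 := hmax L hLS hLb
        linarith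
      exact h.thin.five hSP hSc be' ce' Le' Re' hee (by
        simp [bc, hLb.symm, hRb.symm, hLc.symm, hRc.symm, nLR, Ne.symm heb, Ne.symm hec,
          Ne.symm heL, Ne.symm heR])
    rw [← h1]; exact hmax
  have maxc : ∀ z ∈ S, z ≠ c → fc z ≤ fc R := by
    obtain ⟨e, he, heb, hmax⟩ := per_argmax fc ⟨R, hRS, hRc⟩
    have hee := hf.max_c hSP he heb hmax
    have h1 : e = R := by
      by_contra heR
      have hec : e ≠ b := by
        rintro rfl
        have h2 := hmax R hRS hRc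
        have h3 := hf.cb R hRP hRc hRb
        linarith
      have heL : e ≠ L := by
        rintro rfl
        have h2 := hmax R hRS hRc
        linarith
      exact h.thin.five hSP hSc be' ce' Le' Re' hee (by
        simp [bc, hLb.symm, hRb.symm, hLc.symm, hRc.symm, nLR, Ne.symm heb, Ne.symm hec,
          Ne.symm heL, Ne.symm heR])
    rw [← h1]; exact hmax
  refine ⟨L, R, ⟨ha, hb, hc, hL, hR, Ne.symm naL, Ne.symm naR, ?_, ?_, ?_, ?_, ?_⟩⟩
  · intro x hx hxT hxb
    have hxL : x ≠ L := fun e => hxT (e ▸ hL)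
    rw [hf.hb x hx L hLP hxb hLb]
    have h1 := maxb x (hOS (Finset.mem_sdiff.2 ⟨hx, hxT⟩)) hxb
    exact lt_of_le_of_ne h1 fun e => hxL (hf.ib x hx L hLP hxb hLb e)
  · intro x hx hxT hxc
    have hxR : x ≠ R := fun e => hxT (e ▸ hR)
    rw [hf.hc x hx R hRP hxc hRc]
    have h1 := maxc x (hOS (Finset.mem_sdiff.2 ⟨hx, hxT⟩)) hxc
    exact lt_of_le_of_ne h1 fun e => hxR (hf.ic x hx R hRP hxc hRc e)
  · rintro t ht ⟨t1, t2⟩
    have htP := hT.sub ht
    have htb : t ≠ b := fun e => hb (e ▸ ht)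
    have htc : t ≠ c := fun e => hc (e ▸ ht)
    rw [hf.hb t htP L hLP htb hLb] at t1
    rw [hf.hc t htP R hRP htc hRc] at t2
    have htL : t ≠ L := by rintro rfl; exact lt_irrefl _ t1
    have htR : t ≠ R := by rintro rfl; exact lt_irrefl _ t2
    have hS'P : insert t S ⊆ P := by
      intro z hz
      rcases Finset.mem_insert.1 hz with rfl | hz
      · exact htP
      · exact hSP hz
    have hmem : ∀ {z}, z ∈ S → z ∈ insert t S := fun hz => Finset.mem_insert_of_mem hz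
    have hS'c : m + 1 ≤ (insert t S).card :=
      hSc.trans (Finset.card_le_card (Finset.subset_insert _ _))
    have x1 : ExtP (insert t S) b := h.conf.extb.mono (hmem (hOS hbO)) hS'P
    have x2 : ExtP (insert t S) c := h.conf.extc.mono (hmem (hOS hcO)) hS'P
    have x3 : ExtP (insert t S) L := hf.max_b hS'P (hmem hLS) hLb (by
      intro z hz hzb
      rcases Finset.mem_insert.1 hz with rfl | hz
      · exact t1.le
      · exact maxb z hz hzb)
    have x4 : ExtP (insert t S) R := hf.max_c hS'P (hmem hRS) hRc (by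
      intro z hz hzb
      rcases Finset.mem_insert.1 hz with rfl | hz
      · exact t2.le
      · exact maxc z hz hzb)
    have x5 : ExtP (insert t S) t := by
      obtain ⟨e, hee, hpe⟩ := exists_ext_pos (S := insert t S) (x := t) (u := L) (v := R)
        (Finset.mem_insert_self _ _) (e3 t ht htL htR)
      have h1 : e = t := by
        rcases Finset.mem_insert.1 hee.mem with h2 | h2
        · exact h2
        · exfalso
          have heL : e ≠ L := by rintro rfl; simp at hpe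
          have heR : e ≠ R := by rintro rfl; simp at hpe
          have h3 := hRL e h2 heR heL
          rw [D_swap] at h3
          linarith
      rw [h1] at hee
      exact hee
    exact h.thin.five hS'P hS'c x1 x2 x3 x4 x5 (by
      simp [bc, hLb.symm, hRb.symm, hLc.symm, hRc.symm, nLR, Ne.symm htb, Ne.symm htc,
          Ne.symm htL, Ne.symm htR])
  · rw [hf.hb R hRP L hLP hRb hLb]; exact hbRL
  · rw [hf.hc L hLP R hRP hLc hRc]; exact hcLR

end lemA

section count

variable {s : ℝ} {m : ℕ} {P T Ta Tb Tc : Finset (ℝ × ℝ)} {a b c L R X Y Z V v w : ℝ × ℝ}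

/-- data of Lemma AB -/
structure BDat (s : ℝ) (P T : Finset (ℝ × ℝ)) (a b v w : ℝ × ℝ) : Prop where
  aT : a ∈ T
  bT : b ∈ T
  hv : v ∈ T
  hw : w ∈ T
  va : v ≠ a
  vb : v ≠ b
  wa : w ≠ a
  wb : w ≠ b
  b1 : ∀ t ∈ T, t ≠ b → t ≠ v → 0 < D s b v t
  b2 : ∀ t ∈ T, t ≠ a → t ≠ w → 0 < D s a t w
  b3 : ∀ x ∈ P, x ∉ T → 0 < D s b x v ∨ 0 < D s a w x

lemma per_B (h : Setting s m P a b c) (hT : InF m P T) (ha : a ∈ T) (hb : b ∈ T) (hc : c ∉ T) :
    ∃ v w, BDat s P T a b v w := by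
  classical
  obtain ⟨fa, fb, fc, hf⟩ := exists_perCo h.conf
  have hs := h.conf.hs
  have hcard : 5 ≤ T.card := by rw [hT.card]; exact h.hm
  have hgT : Gen T := h.conf.gen.mono hT.sub
  obtain ⟨t0, ht0, t0a, t0b⟩ := per_pick (T := T) (by omega : 3 ≤ T.card) a b
  obtain ⟨v, hv, hvb, hmin⟩ := per_argmin fb (S := T) ⟨t0, ht0, t0b⟩
  obtain ⟨w, hw, hwa, hmax⟩ := per_argmax fa (S := T) ⟨t0, ht0, t0a⟩
  have hva : v ≠ a := by
    rintro rfl
    have h1 := hmin t0 ht0 t0b
    have h2 := hf.ba t0 (hT.sub ht0) t0b t0a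
    linarith
  have hwb : w ≠ b := by
    rintro rfl
    have h1 := hmax t0 ht0 t0a
    have h2 := hf.ab t0 (hT.sub ht0) t0a t0b
    linarith
  have hvP := hT.sub hv
  have hwP := hT.sub hw
  have b1 : ∀ t ∈ T, t ≠ b → t ≠ v → 0 < D s b v t := by
    intro t ht h1 h2
    rw [hf.hb v hvP t (hT.sub ht) hvb h1]
    exact lt_of_le_of_ne (hmin t ht h1) fun e => h2 (hf.ib v hvP t (hT.sub ht) hvb h1 e).symm
  have b2 : ∀ t ∈ T, t ≠ a → t ≠ w → 0 < D s a t w := by
    intro t ht h1 h2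
    rw [hf.ha t (hT.sub ht) w hwP h1 hwa]
    exact lt_of_le_of_ne (hmax t ht h1) fun e => h2 (hf.ia t (hT.sub ht) w hwP h1 hwa e)
  have hvw : v ≠ w := by
    rintro rfl
    have := per_ncard (T := T) {a, b, v} (by
      intro z hz
      by_contra hcon
      simp only [Finset.mem_insert, Finset.mem_singleton, not_or] at hcon
      refine per_not_ext (s := s) ha hb hv (h.conf.eab z (hT.sub hz.mem) hcon.1 hcon.2.1)
        (b1 z hz.mem hcon.2.1 hcon.2.2) ?_ hz
      exact p2 (b2 z hz.mem hcon.1 hcon.2.2))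
    have h3 := Finset.card_le_three (a := a) (b := b) (c := v)
    have h4 := hT.fat
    omega
  refine ⟨v, w, ⟨ha, hb, hv, hw, hva, hvb, hwa, hwb, b1, b2, ?_⟩⟩
  intro x hx hxT
  have hxa : x ≠ a := fun e => hxT (e ▸ ha)
  have hxb : x ≠ b := fun e => hxT (e ▸ hb)
  have hxv : x ≠ v := fun e => hxT (e ▸ hv)
  have hxw : x ≠ w := fun e => hxT (e ▸ hw)
  by_contra hcon
  push Not at hcon
  obtain ⟨g1, g2⟩ := hcon
  have g1' : 0 < D s b v x := by
    have hne := h.conf.gen.D_ne hs h.conf.hb hvP hx hvb.symm hxb.symm hxv.symm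
    rw [D_swap'] at g1
    exact lt_of_le_of_ne (by linarith) hne.symm
  have g2' : 0 < D s a x w := by
    have hne := h.conf.gen.D_ne hs h.conf.ha hx hwP hxa.symm hwa.symm hxw
    rw [D_swap'] at g2
    exact lt_of_le_of_ne (by linarith) hne.symm
  have hSP : insert x T ⊆ P := by
    intro z hz
    rcases Finset.mem_insert.1 hz with rfl | hz
    · exact hx
    · exact hT.sub hz
  have hSc : m + 1 ≤ (insert x T).card := by
    rw [Finset.card_insert_of_notMem hxT, hT.card]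
  have hmem : ∀ {z}, z ∈ T → z ∈ insert x T := fun hz => Finset.mem_insert_of_mem hz
  have x1 := hT.closed x hx hxT
  have x2 : ExtP (insert x T) a := h.conf.exta.mono (hmem ha) hSP
  have x3 : ExtP (insert x T) b := h.conf.extb.mono (hmem hb) hSP
  have x4 : ExtP (insert x T) v := per_ext_min (s := s) (hmem hv) hvb (by
    intro z hz h1 h2
    rcases Finset.mem_insert.1 hz with rfl | hz
    · exact g1'
    · exact b1 z hz h1 h2)
  have x5 : ExtP (insert x T) w := per_ext_max (s := s) (hmem hw) hwa (by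
    intro z hz h1 h2
    rcases Finset.mem_insert.1 hz with rfl | hz
    · exact g2'
    · exact b2 z hz h1 h2)
  exact h.thin.five hSP hSc x1 x2 x3 x4 x5 (by
    simp [hxa, hxb, hxv, hxw, h.conf.ab, hva.symm, hwa.symm, hvb.symm, hwb.symm, hvw])

lemma per_c1 (h : Setting s m P a b c) (hTa : InF m P Ta) (A : ADat s P Ta a b c L R)
    (hTb : InF m P Tb) (B : ADat s P Tb b c a X Y) : D s c X R < 0 := by
  classical
  obtain ⟨fa, fb, fc, hf⟩ := exists_perCo h.conf
  have hRc : R ≠ c := fun e => A.cT (e ▸ A.hR)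
  have hXc : X ≠ c := fun e => B.bT (e ▸ B.hL)
  have hRP := hTa.sub A.hR
  have hXP := hTb.sub B.hL
  by_contra hcon
  rw [hf.hc X hXP R hRP hXc hRc, not_lt] at hcon
  have hsub : P.erase c ⊆ Ta ∪ Tb := by
    intro p hp
    rw [Finset.mem_erase] at hp
    rw [Finset.mem_union]
    by_contra h'
    push Not at h'
    have h1 := A.a2 p hp.2 h'.1 hp.1
    have h2 := B.a1 p hp.2 h'.2 hp.1
    rw [hf.hc p hp.2 R hRP hp.1 hRc] at h1
    have h3 : D s c p X < 0 := by
      rw [hf.hc p hp.2 X hXP hp.1 hXc]; linarith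
    linarith
  have hXa : X ∈ Ta := by
    by_contra h'
    have h1 := A.a2 X hXP h' hXc
    rw [hf.hc X hXP R hRP hXc hRc] at h1
    linarith
  have h1 := Finset.card_le_card hsub
  rw [Finset.card_erase_of_mem h.conf.hc, h.card] at h1
  have h2 := Finset.card_union_add_card_inter Ta Tb
  rw [hTa.card, hTb.card] at h2
  have h3 : 0 < (Ta ∩ Tb).card :=
    Finset.card_pos.2 ⟨X, Finset.mem_inter.2 ⟨hXa, B.hL⟩⟩
  omega

lemma per_c2 (h : Setting s m P a b c) (hTa : InF m P Ta) (A : ADat s P Ta a b c L R)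
    (hT : InF m P T) (Bd : BDat s P T a b v w) : ¬ 0 < D s b L v := by
  classical
  obtain ⟨fa, fb, fc, hf⟩ := exists_perCo h.conf
  have hLP := hTa.sub A.hL
  have hRP := hTa.sub A.hR
  have hvP := hT.sub Bd.hv
  have hLb : L ≠ b := fun e => A.bT (e ▸ A.hL)
  have hRb : R ≠ b := fun e => A.bT (e ▸ A.hR)
  intro hcon
  rw [hf.hb L hLP v hvP hLb Bd.vb] at hcon
  have hRL := A.a4
  rw [hf.hb R hRP L hLP hRb hLb] at hRL
  have hout : ∀ x ∈ P, x ≠ b → fb x < fb v → x ∉ T := by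
    intro x hx hxb hlt hxT
    have hxv : x ≠ v := by rintro rfl; exact lt_irrefl _ hlt
    have h1 := Bd.b1 x hxT hxb hxv
    rw [hf.hb v hvP x hx Bd.vb hxb] at h1
    linarith
  have hLT := hout L hLP hLb hcon
  have hRT := hout R hRP hRb (by linarith)
  have hLR : L ≠ R := by rintro rfl; exact lt_irrefl _ hRL
  have hsub : insert L (insert R (T.erase b)) ⊆ Ta := by
    intro z hz
    rw [Finset.mem_insert, Finset.mem_insert, Finset.mem_erase] at hz
    rcases hz with rfl | rfl | ⟨hzb, hz⟩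
    · exact A.hL
    · exact A.hR
    · by_contra hzT
      have h1 := A.a1 z (hT.sub hz) hzT hzb
      rw [hf.hb z (hT.sub hz) L hLP hzb hLb] at h1
      by_cases hzv : z = v
      · subst hzv; linarith
      · have h2 := Bd.b1 z hz hzb hzv
        rw [hf.hb v hvP z (hT.sub hz) Bd.vb hzb] at h2
        linarith
  have h1 := Finset.card_le_card hsub
  rw [Finset.card_insert_of_notMem (by
      rw [Finset.mem_insert, Finset.mem_erase]
      rintro (h | h)
      · exact hLR h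
      · exact hLT h.2), Finset.card_insert_of_notMem (by
      rw [Finset.mem_erase]; exact fun h => hRT h.2), Finset.card_erase_of_mem Bd.bT,
    hTa.card, hT.card] at h1
  have := h.hm
  omega

lemma per_c2' (h : Setting s m P a b c) (hTb : InF m P Tb) (B : ADat s P Tb b c a X Y)
    (hT : InF m P T) (Bd : BDat s P T a b v w) : ¬ 0 < D s a w Y := by
  classical
  obtain ⟨fa, fb, fc, hf⟩ := exists_perCo h.conf
  have hXP := hTb.sub B.hL
  have hYP := hTb.sub B.hR
  have hwP := hT.sub Bd.hw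
  have hXa : X ≠ a := fun e => B.cT (e ▸ B.hL)
  have hYa : Y ≠ a := fun e => B.cT (e ▸ B.hR)
  intro hcon
  rw [hf.ha w hwP Y hYP Bd.wa hYa] at hcon
  have hYX : fa Y < fa X := by
    rw [← hf.ha Y hYP X hXP hYa hXa, D_swap']
    have := B.a5
    linarith
  have hout : ∀ x ∈ P, x ≠ a → fa w < fa x → x ∉ T := by
    intro x hx hxa hlt hxT
    have hxw : x ≠ w := by rintro rfl; exact lt_irrefl _ hlt
    have h1 := Bd.b2 x hxT hxa hxw
    rw [hf.ha x hx w hwP hxa Bd.wa] at h1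
    linarith
  have hYT := hout Y hYP hYa hcon
  have hXT := hout X hXP hXa (by linarith)
  have hXY : X ≠ Y := by rintro rfl; exact lt_irrefl _ hYX
  have hsub : insert X (insert Y (T.erase a)) ⊆ Tb := by
    intro z hz
    rw [Finset.mem_insert, Finset.mem_insert, Finset.mem_erase] at hz
    rcases hz with rfl | rfl | ⟨hza, hz⟩
    · exact B.hL
    · exact B.hR
    · by_contra hzT
      have h1 := B.a2 z (hT.sub hz) hzT hza
      have h1' : fa Y < fa z := by
        rw [← hf.ha Y hYP z (hT.sub hz) hYa hza, D_swap']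
        linarith
      by_cases hzw : z = w
      · subst hzw; linarith
      · have h2 := Bd.b2 z hz hza hzw
        rw [hf.ha z (hT.sub hz) w hwP hza Bd.wa] at h2
        linarith
  have h1 := Finset.card_le_card hsub
  rw [Finset.card_insert_of_notMem (by
      rw [Finset.mem_insert, Finset.mem_erase]
      rintro (h | h)
      · exact hXY h
      · exact hXT h.2), Finset.card_insert_of_notMem (by
      rw [Finset.mem_erase]; exact fun h => hYT h.2), Finset.card_erase_of_mem Bd.aT,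
    hTb.card, hT.card] at h1
  have := h.hm
  omega

lemma per_delta (h : Setting s m P a b c) (hTa : InF m P Ta) (A : ADat s P Ta a b c L R)
    (hTb : InF m P Tb) (B : ADat s P Tb b c a X Y) {t : ℝ × ℝ} (ta : t ∈ Ta) (tb : t ∈ Tb) :
    ∃ p ∈ P, p ≠ a ∧ p ≠ b ∧ p ≠ c ∧ ¬ 0 < D s b p L ∧ ¬ 0 < D s a Y p := by
  obtain ⟨fa, fb, fc, hf⟩ := exists_perCo h.conf
  have c1 := per_c1 h hTa A hTb B
  have hLP := hTa.sub A.hL
  have hRP := hTa.sub A.hR
  have hXP := hTb.sub B.hL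
  have hYP := hTb.sub B.hR
  have htP := hTa.sub ta
  have hLb : L ≠ b := fun e => A.bT (e ▸ A.hL)
  have hLc : L ≠ c := fun e => A.cT (e ▸ A.hL)
  have hRb : R ≠ b := fun e => A.bT (e ▸ A.hR)
  have hRc : R ≠ c := fun e => A.cT (e ▸ A.hR)
  have hXa : X ≠ a := fun e => B.cT (e ▸ B.hL)
  have hXc : X ≠ c := fun e => B.bT (e ▸ B.hL)
  have hYa : Y ≠ a := fun e => B.cT (e ▸ B.hR)
  have hYc : Y ≠ c := fun e => B.bT (e ▸ B.hR)
  have hYb : Y ≠ b := B.Ra
  have hta : t ≠ a := fun e => B.cT (e ▸ tb)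
  have htb : t ≠ b := fun e => A.bT (e ▸ ta)
  have htc : t ≠ c := fun e => A.cT (e ▸ ta)
  have hYX : fc X < fc Y := by
    rw [← hf.hc X hXP Y hYP hXc hYc, D_swap']
    have := B.a4
    linarith
  have hLR := A.a5
  rw [hf.hc X hXP R hRP hXc hRc] at c1
  rw [hf.hc L hLP R hRP hLc hRc] at hLR
  have hb3 := B.a3 t tb
  have ha3 := A.a3 t ta
  by_cases q1 : fb L ≤ fb t
  · by_cases q2 : fa t ≤ fa Y
    · refine ⟨t, htP, hta, htb, htc, ?_, ?_⟩
      · rw [hf.hb t htP L hLP htb hLb, not_lt]; exact q1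
      · rw [hf.ha Y hYP t htP hYa hta, not_lt]; exact q2
    · rw [not_le] at q2
      refine ⟨Y, hYP, hYa, hYb, hYc, ?_, by simp⟩
      have h1 : ¬ 0 < D s c t X := by
        intro h2
        apply hb3
        refine ⟨h2, ?_⟩
        rw [D_swap']
        have : 0 < D s a Y t := by rw [hf.ha Y hYP t htP hYa hta]; exact q2
        linarith
      have h2 : fc t ≤ fc X := by
        by_contra h3
        rw [not_le, ← hf.hc X hXP t htP hXc htc, D_swap'] at h3
        exact h1 (by linarith)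
      have h3 : fb t < fb Y := by
        by_contra h4
        rw [not_lt] at h4
        rcases h4.lt_or_eq with h5 | h5
        · have := hf.ceva Y hYP t htP hYa hYb hYc hta htb htc q2 h5
          linarith
        · have := hf.ib Y hYP t htP hYb htb h5
          rw [this] at q2
          exact lt_irrefl _ q2
      rw [hf.hb Y hYP L hLP hYb hLb, not_lt]
      linarith
  · rw [not_le] at q1
    refine ⟨L, hLP, A.La, hLb, hLc, by simp, ?_⟩
    have h1 : fc R ≤ fc t := by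
      by_contra h2
      rw [not_le, ← hf.hc t htP R hRP htc hRc] at h2
      apply ha3
      refine ⟨?_, h2⟩
      rw [hf.hb t htP L hLP htb hLb]; exact q1
    have h2 : fa t ≤ fa Y := by
      by_contra h3
      rw [not_le, ← hf.ha Y hYP t htP hYa hta] at h3
      apply hb3
      constructor
      · have : D s c X t < 0 := by rw [hf.hc X hXP t htP hXc htc]; linarith
        rw [D_swap']; linarith
      · rw [D_swap']; linarith
    have h3 : fa L < fa t := by
      by_contra h4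
      rw [not_lt] at h4
      rcases h4.lt_or_eq with h5 | h5
      · have := hf.ceva t htP L hLP hta htb htc A.La hLb hLc h5 q1
        linarith
      · have := hf.ia t htP L hLP hta A.La h5
        rw [this] at q1
        exact lt_irrefl _ q1
    rw [hf.ha Y hYP L hLP hYa A.La, not_lt]
    linarith

lemma per_sec {p x y : ℝ × ℝ} (h0 : 0 < D s p a b)
    (h : 0 < D s a p x * D s b p y - D s a p y * D s b p x) : 0 < D s p x y := by
  have hid : D s p a b * D s p x y = D s a p x * D s b p y - D s a p y * D s b p x := by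
    simp only [D, dt]; ring
  rw [← hid] at h
  exact (pos_iff_pos_of_mul_pos h).1 h0

lemma per_void (h : Setting s m P a b c) (hTa : InF m P Ta) (A : ADat s P Ta a b c L R)
    (hTb : InF m P Tb) (B : ADat s P Tb b c a X Y) (hdis : Disjoint Ta Tb) :
    (∀ z ∈ P, z ≠ c → z ∈ Ta ∨ z ∈ Tb) ∧ (∀ p ∈ Tb, ∀ q ∈ Ta, D s c p q < 0) ∧
      (∃ U ⊆ P, m + 1 ≤ U.card ∧ ∀ z ∈ U, z ≠ a ∧ z ≠ L ∧ 0 < D s a z L) ∧
      (∃ U ⊆ P, m + 1 ≤ U.card ∧ ∀ z ∈ U, z ≠ b ∧ z ≠ Y ∧ 0 < D s b Y z) := by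
  classical
  obtain ⟨fa, fb, fc, hf⟩ := exists_perCo h.conf
  have hs := h.conf.hs
  have hg := h.conf.gen
  have hLP := hTa.sub A.hL
  have hRP := hTa.sub A.hR
  have hXP := hTb.sub B.hL
  have hYP := hTb.sub B.hR
  have hLa := A.La
  have hRa := A.Ra
  have hXb : X ≠ b := B.La
  have hYb : Y ≠ b := B.Ra
  have hLb : L ≠ b := fun e => A.bT (e ▸ A.hL)
  have hLc : L ≠ c := fun e => A.cT (e ▸ A.hL)
  have hRb : R ≠ b := fun e => A.bT (e ▸ A.hR)
  have hRc : R ≠ c := fun e => A.cT (e ▸ A.hR)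
  have hXa : X ≠ a := fun e => B.cT (e ▸ B.hL)
  have hXc : X ≠ c := fun e => B.bT (e ▸ B.hL)
  have hYa : Y ≠ a := fun e => B.cT (e ▸ B.hR)
  have hYc : Y ≠ c := fun e => B.bT (e ▸ B.hR)
  have hLR : fc L < fc R := by rw [← hf.hc L hLP R hRP hLc hRc]; exact A.a5
  have hRL : fb R < fb L := by rw [← hf.hb R hRP L hLP hRb hLb]; exact A.a4
  have hXY : fc X < fc Y := by
    rw [← hf.hc X hXP Y hYP hXc hYc, D_swap']
    have := B.a4
    linarith
  have hYX : fa Y < fa X := by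
    rw [← hf.ha Y hYP X hXP hYa hXa, D_swap']
    have := B.a5
    linarith
  -- real forms of the data
  have A1 : ∀ x ∈ P, x ∉ Ta → x ≠ b → fb x < fb L := fun x hx hxT hxb => by
    rw [← hf.hb x hx L hLP hxb hLb]; exact A.a1 x hx hxT hxb
  have A2 : ∀ x ∈ P, x ∉ Ta → x ≠ c → fc x < fc R := fun x hx hxT hxc => by
    rw [← hf.hc x hx R hRP hxc hRc]; exact A.a2 x hx hxT hxc
  have B1 : ∀ x ∈ P, x ∉ Tb → x ≠ c → fc X < fc x := fun x hx hxT hxc => by
    rw [← hf.hc X hXP x hx hXc hxc, D_swap']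
    have := B.a1 x hx hxT hxc
    linarith
  have B2 : ∀ x ∈ P, x ∉ Tb → x ≠ a → fa Y < fa x := fun x hx hxT hxa => by
    rw [← hf.ha Y hYP x hx hYa hxa, D_swap']
    have := B.a2 x hx hxT hxa
    linarith
  have A3 : ∀ x ∈ Ta, x ≠ b → x ≠ c → fb x < fb L → fc R ≤ fc x := by
    intro x hx hxb hxc h1
    by_contra h2
    rw [not_le] at h2
    apply A.a3 x hx
    rw [hf.hb x (hTa.sub hx) L hLP hxb hLb, hf.hc x (hTa.sub hx) R hRP hxc hRc]
    exact ⟨h1, h2⟩
  have B3 : ∀ x ∈ Tb, x ≠ c → x ≠ a → fc X < fc x → fa x ≤ fa Y := by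
    intro x hx hxc hxa h1
    by_contra h2
    rw [not_le] at h2
    apply B.a3 x hx
    rw [← hf.hc X hXP x (hTb.sub hx) hXc hxc, D_swap'] at h1
    rw [← hf.ha Y hYP x (hTb.sub hx) hYa hxa, D_swap'] at h2
    exact ⟨by linarith, by linarith⟩
  have hout : ∀ {z}, z ∈ Ta → z ∉ Tb := fun h1 h2 => Finset.disjoint_left.1 hdis h1 h2
  -- cover
  have hcov : ∀ z ∈ P, z ≠ c → z ∈ Ta ∨ z ∈ Tb := by
    have h1 : Ta ∪ Tb = P.erase c := by
      apply Finset.eq_of_subset_of_card_le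
      · intro z hz
        rw [Finset.mem_erase]
        rcases Finset.mem_union.1 hz with h2 | h2
        · exact ⟨fun e => A.cT (e ▸ h2), hTa.sub h2⟩
        · exact ⟨fun e => B.bT (e ▸ h2), hTb.sub h2⟩
      · rw [Finset.card_erase_of_mem h.conf.hc, h.card, Finset.card_union_of_disjoint hdis,
          hTa.card, hTb.card]
        omega
    intro z hz hzc
    rw [← Finset.mem_union, h1]
    exact Finset.mem_erase.2 ⟨hzc, hz⟩
  -- V1
  have V1 : ∀ p ∈ Tb, ∀ q ∈ Ta, fc p < fc q := by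
    intro p hp q hq
    have hpP := hTb.sub hp
    have hqP := hTa.sub hq
    have hpa : p ≠ a := fun e => B.cT (e ▸ hp)
    have hpc : p ≠ c := fun e => B.bT (e ▸ hp)
    have hqb : q ≠ b := fun e => A.bT (e ▸ hq)
    have hqc : q ≠ c := fun e => A.cT (e ▸ hq)
    have hpTa : p ∉ Ta := fun h1 => hout h1 hp
    have hqTb : q ∉ Tb := hout hq
    by_contra h1
    rw [not_lt] at h1
    have h2 : fc q < fc p := by
      rcases h1.lt_or_eq with h2 | h2
      · exact h2
      · have := hf.ic q hqP p hpP hqc hpc h2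
        exact absurd hp (this ▸ hqTb)
    have hpb : p ≠ b := by
      rintro rfl
      have := hf.cb q hqP hqc hqb
      linarith
    have hqa : q ≠ a := by
      rintro rfl
      have := hf.ca p hpP hpc hpa
      linarith
    have k1 := A1 p hpP hpTa hpb
    have k2 := A2 p hpP hpTa hpc
    have k3 : fb L ≤ fb q := by
      by_contra h3
      rw [not_le] at h3
      have := A3 q hq hqb hqc h3
      linarith
    have k4 := B1 q hqP hqTb hqc
    have k5 := B2 q hqP hqTb hqa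
    have k6 := B3 p hp hpc hpa (by linarith)
    have := hf.ceva p hpP q hqP hpa hpb hpc hqa hqb hqc (by linarith) (by linarith)
    linarith
  have V1' : ∀ p ∈ Tb, ∀ q ∈ Ta, D s c p q < 0 := by
    intro p hp q hq
    rw [hf.hc p (hTb.sub hp) q (hTa.sub hq) (fun e => B.bT (e ▸ hp)) (fun e => A.cT (e ▸ hq))]
    exact V1 p hp q hq
  -- Y and L
  have hYTa : Y ∉ Ta := fun h1 => hout h1 B.hR
  have hLTb : L ∉ Tb := hout A.hL
  have ya := B2 L hLP hLTb hLa
  have yb := A1 Y hYP hYTa hYb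
  have yc := V1 Y B.hR L A.hL
  have hYL : Y ≠ L := by rintro rfl; exact lt_irrefl _ ya
  have Da : 0 < D s Y L a := p1 ((hf.ha Y hYP L hLP hYa hLa).2 ya)
  have Db : 0 < D s Y L b := p1 ((hf.hb Y hYP L hLP hYb hLb).2 yb)
  have Dc : D s Y L c < 0 := n1 ((hf.hc Y hYP L hLP hYc hLc).2 yc)
  -- X is right of Y L
  have xb : fb X < fb Y := by
    by_contra h1
    rw [not_lt] at h1
    rcases h1.lt_or_eq with h2 | h2
    · have := hf.ceva Y hYP X hXP hYa hYb hYc hXa hXb hXc hYX h2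
      linarith
    · have := hf.ib Y hYP X hXP hYb hXb h2
      rw [this] at hYX
      exact lt_irrefl _ hYX
  have DX : D s Y L X < 0 := by
    have h1 : 0 < D s Y X L := by
      apply per_sec (a := a) (b := b) (p2 (h.conf.eab Y hYP hYa hYb))
      have e1 : 0 < D s a Y X := (hf.ha Y hYP X hXP hYa hXa).2 hYX
      have e2 : 0 < D s b Y L := (hf.hb Y hYP L hLP hYb hLb).2 yb
      have e3 : 0 < D s a Y L := (hf.ha Y hYP L hLP hYa hLa).2 ya
      have e4 : D s b Y X < 0 := by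
        have := (hf.hb X hXP Y hYP hXb hYb).2 xb
        rw [D_swap'] at this
        linarith
      have := mul_pos e1 e2
      have := mul_neg_of_pos_of_neg e3 e4
      linarith
    rw [D_swap']; linarith
  -- R is right of Y L
  have ra : fa L < fa R := by
    by_contra h1
    rw [not_lt] at h1
    rcases h1.lt_or_eq with h2 | h2
    · have := hf.ceva R hRP L hLP hRa hRb hRc hLa hLb hLc h2 hRL
      linarith
    · have := hf.ia R hRP L hLP hRa hLa h2
      rw [this] at hRL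
      exact lt_irrefl _ hRL
  have DR : D s Y L R < 0 := by
    have h1 : 0 < D s L Y R := by
      apply per_sec (a := a) (b := b) (p2 (h.conf.eab L hLP hLa hLb))
      have e1 : D s a L Y < 0 := by
        have := (hf.ha Y hYP L hLP hYa hLa).2 ya
        rw [D_swap'] at this; linarith
      have e2 : D s b L R < 0 := by
        have := (hf.hb R hRP L hLP hRb hLb).2 hRL
        rw [D_swap'] at this; linarith
      have e3 : 0 < D s a L R := (hf.ha L hLP R hRP hLa hRa).2 ra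
      have e4 : D s b L Y < 0 := by
        have := (hf.hb Y hYP L hLP hYb hLb).2 yb
        rw [D_swap'] at this; linarith
      have := mul_pos_of_neg_of_neg e1 e2
      have := mul_neg_of_pos_of_neg e3 e4
      linarith
    rw [D_swap]; linarith
  -- the two closed sides
  set Q1 := P.filter (fun z => D s Y L z ≤ 0) with hQ1
  set Q2 := P.filter (fun z => 0 ≤ D s Y L z) with hQ2
  have hQ1P : Q1 ⊆ P := Finset.filter_subset _ _
  have hQ2P : Q2 ⊆ P := Finset.filter_subset _ _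
  have hsides : Q2.card + Q1.card = P.card + 2 := by
    have := card_sides (s := s) hg hs hYP hLP hYL
    rw [← this]
  rw [h.card] at hsides
  have m1 : ∀ {z}, z ∈ P → D s Y L z ≤ 0 → z ∈ Q1 := fun h1 h2 => Finset.mem_filter.2 ⟨h1, h2⟩
  have m2 : ∀ {z}, z ∈ P → 0 ≤ D s Y L z → z ∈ Q2 := fun h1 h2 => Finset.mem_filter.2 ⟨h1, h2⟩
  have hQ1c : Q1.card ≤ m := by
    by_contra hcon
    rw [not_le] at hcon
    have cQ := m1 h.conf.hc Dc.le
    have YQ : Y ∈ Q1 := m1 hYP (by simp)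
    have LQ : L ∈ Q1 := m1 hLP (by simp)
    have XQ := m1 hXP DX.le
    have RQ := m1 hRP DR.le
    have x1 : ExtP Q1 c := h.conf.extc.mono cQ hQ1P
    have hed : ∀ z ∈ Q1, z ≠ L → z ≠ Y → 0 < D s L Y z := by
      intro z hz h1 h2
      have h3 := Finset.mem_filter.1 hz
      have h4 := hg.D_ne hs hYP hLP h3.1 hYL (Ne.symm h2) (Ne.symm h1)
      have h5 : D s Y L z < 0 := lt_of_le_of_ne h3.2 h4
      rw [D_swap]; linarith
    have x2 : ExtP Q1 L := edge_ext LQ YQ hYL.symm hed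
    have x3 : ExtP Q1 Y := edge_ext' LQ YQ hYL.symm hed
    obtain ⟨e, he, hec, hmin⟩ := per_argmin fc (S := Q1) ⟨X, XQ, hXc⟩
    obtain ⟨e', he', hec', hmax⟩ := per_argmax fc (S := Q1) ⟨R, RQ, hRc⟩
    have x4 := hf.min_c hQ1P he hec hmin
    have x5 := hf.max_c hQ1P he' hec' hmax
    have k1 := hmin X XQ hXc
    have k2 := hmax R RQ hRc
    have n1' : e ≠ L := by rintro rfl; linarith
    have n2' : e ≠ Y := by rintro rfl; linarith
    have n3' : e' ≠ L := by rintro rfl; linarith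
    have n4' : e' ≠ Y := by rintro rfl; linarith
    have n5' : e ≠ e' := by rintro rfl; linarith
    exact h.thin.five hQ1P hcon x1 x2 x3 x4 x5 (by
      simp [hLc.symm, hYc.symm, hec.symm, hec'.symm, hYL.symm, n1'.symm, n2'.symm, n3'.symm,
        n4'.symm, n5'])
  have hQ2c : m + 3 ≤ Q2.card := by omega
  have aQ := m2 h.conf.ha Da.le
  have bQ := m2 h.conf.hb Db.le
  have YQ : Y ∈ Q2 := m2 hYP (by simp)
  have LQ : L ∈ Q2 := m2 hLP (by simp)
  have x1 : ExtP Q2 a := h.conf.exta.mono aQ hQ2P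
  have x2 : ExtP Q2 b := h.conf.extb.mono bQ hQ2P
  have hed : ∀ z ∈ Q2, z ≠ Y → z ≠ L → 0 < D s Y L z := by
    intro z hz h1 h2
    have h3 := Finset.mem_filter.1 hz
    have h4 := hg.D_ne hs hYP hLP h3.1 hYL (Ne.symm h1) (Ne.symm h2)
    exact lt_of_le_of_ne h3.2 h4.symm
  have x3 : ExtP Q2 Y := edge_ext YQ LQ hYL hed
  have x4 : ExtP Q2 L := edge_ext' YQ LQ hYL hed
  have ab := h.conf.ab
  have maxa : ∀ z ∈ Q2, z ≠ a → fa z ≤ fa L := by
    obtain ⟨e, he, hea, hmax⟩ := per_argmax fa (S := Q2) ⟨L, LQ, hLa⟩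
    have x5 := hf.max_a hQ2P he hea hmax
    have k1 := hmax L LQ hLa
    have h1 : e = L := by
      by_contra heL
      have neb : e ≠ b := by
        rintro rfl
        have := hf.ab L hLP hLa hLb
        linarith
      have neY : e ≠ Y := by rintro rfl; linarith
      exact h.thin.five hQ2P (by omega) x1 x2 x3 x4 x5 (by
        simp [ab, hYa.symm, hLa.symm, hea.symm, hYb.symm, hLb.symm, neb.symm, hYL, neY.symm,
          Ne.symm heL])
    rw [← h1]; exact hmax
  have minb : ∀ z ∈ Q2, z ≠ b → fb Y ≤ fb z := by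
    obtain ⟨e, he, heb, hmin⟩ := per_argmin fb (S := Q2) ⟨Y, YQ, hYb⟩
    have x5 := hf.min_b hQ2P he heb hmin
    have k1 := hmin Y YQ hYb
    have h1 : e = Y := by
      by_contra heY
      have nea : e ≠ a := by
        rintro rfl
        have := hf.ba Y hYP hYb hYa
        linarith
      have neL : e ≠ L := by rintro rfl; linarith
      exact h.thin.five hQ2P (by omega) x1 x2 x3 x4 x5 (by
        simp [ab, hYa.symm, hLa.symm, nea.symm, hYb.symm, hLb.symm, heb.symm, hYL, neL.symm,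
          Ne.symm heY])
    rw [← h1]; exact hmin
  refine ⟨hcov, V1', ⟨(Q2.erase a).erase L, ?_, ?_, ?_⟩, ⟨(Q2.erase b).erase Y, ?_, ?_, ?_⟩⟩
  · intro z hz
    rw [Finset.mem_erase, Finset.mem_erase] at hz
    exact hQ2P hz.2.2
  · rw [Finset.card_erase_of_mem (Finset.mem_erase.2 ⟨hLa, LQ⟩), Finset.card_erase_of_mem aQ]
    omega
  · intro z hz
    rw [Finset.mem_erase, Finset.mem_erase] at hz
    refine ⟨hz.2.1, hz.1, ?_⟩
    rw [hf.ha z (hQ2P hz.2.2) L hLP hz.2.1 hLa]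
    exact lt_of_le_of_ne (maxa z hz.2.2 hz.2.1) fun e =>
      hz.1 (hf.ia z (hQ2P hz.2.2) L hLP hz.2.1 hLa e)
  · intro z hz
    rw [Finset.mem_erase, Finset.mem_erase] at hz
    exact hQ2P hz.2.2
  · rw [Finset.card_erase_of_mem (Finset.mem_erase.2 ⟨hYb, YQ⟩), Finset.card_erase_of_mem bQ]
    omega
  · intro z hz
    rw [Finset.mem_erase, Finset.mem_erase] at hz
    refine ⟨hz.2.1, hz.1, ?_⟩
    rw [hf.hb Y hYP z (hQ2P hz.2.2) hYb hz.2.1]
    exact lt_of_le_of_ne (minb z hz.2.2 hz.2.1) fun e =>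
      hz.1 (hf.ib Y hYP z (hQ2P hz.2.2) hYb hz.2.1 e).symm

lemma per_two (h : Setting s m P a b c) (hTa : InF m P Ta) (A : ADat s P Ta a b c L R)
    (hTb : InF m P Tb) (B : ADat s P Tb b c a X Y) (hdis : Disjoint Ta Tb)
    {Tb' : Finset (ℝ × ℝ)} {X' Y' : ℝ × ℝ}
    (hTb' : InF m P Tb') (B' : ADat s P Tb' b c a X' Y')
    (hTc : InF m P Tc) (C : ADat s P Tc c a b Z V) (hdis' : Disjoint Tb' Tc) : False := by
  classical
  obtain ⟨fa, fb, fc, hf⟩ := exists_perCo h.conf
  obtain ⟨cov1, V1, ⟨U1, hU1, hU1c, hU1'⟩, -⟩ := per_void h hTa A hTb B hdis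
  obtain ⟨cov2, V2, -, ⟨U2, hU2, hU2c, hU2'⟩⟩ := per_void h.rot hTb' B' hTc C hdis'
  have hLP := hTa.sub A.hL
  have hRP := hTa.sub A.hR
  have hZP := hTc.sub C.hL
  have hVP := hTc.sub C.hR
  have hLa := A.La
  have hLb : L ≠ b := fun e => A.bT (e ▸ A.hL)
  have hLc : L ≠ c := fun e => A.cT (e ▸ A.hL)
  have hRc : R ≠ c := fun e => A.cT (e ▸ A.hR)
  have hZa : Z ≠ a := fun e => C.bT (e ▸ C.hL)
  have hVa : V ≠ a := fun e => C.bT (e ▸ C.hR)
  have hVb : V ≠ b := fun e => C.cT (e ▸ C.hR)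
  have hVc : V ≠ c := C.Ra
  -- L ∈ Tc
  have hLT : L ∈ Tc := by
    rcases cov2 L hLP hLa with h1 | h1
    · exfalso
      have hsub : insert L U1 ⊆ Tb' := by
        intro z hz
        rcases Finset.mem_insert.1 hz with rfl | hz
        · exact h1
        · obtain ⟨k1, k2, k3⟩ := hU1' z hz
          rcases cov2 z (hU1 hz) k1 with h2 | h2
          · exact h2
          · have := V2 z h2 L h1
            linarith
      have h3 := Finset.card_le_card hsub
      rw [Finset.card_insert_of_notMem (fun h4 => (hU1' L h4).2.1 rfl), hTb'.card] at h3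
      omega
    · exact h1
  -- V ∈ Ta
  have hVT : V ∈ Ta := by
    rcases cov1 V hVP hVc with h1 | h1
    · exact h1
    · exfalso
      have hsub : insert V U2 ⊆ Tb := by
        intro z hz
        rcases Finset.mem_insert.1 hz with rfl | hz
        · exact h1
        · obtain ⟨k1, k2, k3⟩ := hU2' z hz
          rcases cov1 z (hU2 hz) k1 with h2 | h2
          · have := V1 V h1 z h2
            linarith
          · exact h2
      have h3 := Finset.card_le_card hsub
      rw [Finset.card_insert_of_notMem (fun h4 => (hU2' V h4).2.1 rfl), hTb.card] at h3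
      omega
  have hc1 := per_c1 h.rot.rot hTc C hTa A
  have e1 : fb V < fb L := by
    rw [← hf.hb V hVP L hLP hVb hLb, D_swap']
    linarith
  have e2 : fa Z ≤ fa L := by
    by_contra h1
    rw [not_le, ← hf.ha L hLP Z hZP hLa hZa] at h1
    exact C.a3 L hLT ⟨h1, hc1⟩
  have e3 : fa V < fa Z := by
    rw [← hf.ha V hVP Z hZP hVa hZa]; exact C.a4
  have e4 : fc R ≤ fc V := by
    by_contra h1
    rw [not_le, ← hf.hc V hVP R hRP hVc hRc] at h1
    exact A.a3 V hVT ⟨(hf.hb V hVP L hLP hVb hLb).2 e1, h1⟩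
  have e5 : fc L < fc R := by
    rw [← hf.hc L hLP R hRP hLc hRc]; exact A.a5
  have := hf.ceva V hVP L hLP hVa hVb hVc hLa hLb hLc (by linarith) e1
  linarith

lemma per_disj (h : Setting s m P a b c)
    (hex : ∀ p ∈ P, ∀ q ∈ P, ∃ T, InF m P T ∧ p ∉ T ∧ q ∉ T)
    (hno : ∀ T, InF m P T → a ∈ T ∨ b ∈ T ∨ c ∈ T) :
    ∃ Ta L R Tb X Y, InF m P Ta ∧ ADat s P Ta a b c L R ∧ InF m P Tb ∧
      ADat s P Tb b c a X Y ∧ Disjoint Ta Tb := by
  classical
  obtain ⟨fa, fb, fc, hf⟩ := exists_perCo h.conf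
  -- maximal `L`
  obtain ⟨Ta, L, R, hTa, A, hmaxA⟩ : ∃ Ta L R, InF m P Ta ∧ ADat s P Ta a b c L R ∧
      ∀ T' L' R', InF m P T' → ADat s P T' a b c L' R' → fb L' ≤ fb L := by
    set 𝓐 := (P.powerset ×ˢ P).filter (fun x => InF m P x.1 ∧ ∃ R, ADat s P x.1 a b c x.2 R)
      with h𝓐
    have hmem : ∀ T' L' R', InF m P T' → ADat s P T' a b c L' R' → (T', L') ∈ 𝓐 := by
      intro T' L' R' h1 h2
      rw [h𝓐, Finset.mem_filter, Finset.mem_product, Finset.mem_powerset]
      exact ⟨⟨h1.sub, h1.sub h2.hL⟩, h1, R', h2⟩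
    obtain ⟨T0, hT0, b0, c0⟩ := hex b h.conf.hb c h.conf.hc
    have a0 : a ∈ T0 := by
      rcases hno T0 hT0 with h1 | h1 | h1
      · exact h1
      · exact absurd h1 b0
      · exact absurd h1 c0
    obtain ⟨L0, R0, A0⟩ := per_A h hT0 a0 b0 c0
    obtain ⟨x, hx, hmax⟩ := 𝓐.exists_max_image (fun x => fb x.2) ⟨_, hmem _ _ _ hT0 A0⟩
    rw [h𝓐, Finset.mem_filter] at hx
    obtain ⟨-, h1, R, h2⟩ := hx
    exact ⟨x.1, x.2, R, h1, h2, fun T' L' R' h3 h4 => hmax _ (hmem _ _ _ h3 h4)⟩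
  obtain ⟨Tb, X, Y, hTb, B, hminB⟩ : ∃ Tb X Y, InF m P Tb ∧ ADat s P Tb b c a X Y ∧
      ∀ T' X' Y', InF m P T' → ADat s P T' b c a X' Y' → fa Y ≤ fa Y' := by
    set 𝓑 := (P.powerset ×ˢ P).filter (fun x => InF m P x.1 ∧ ∃ X, ADat s P x.1 b c a X x.2)
      with h𝓑
    have hmem : ∀ T' X' Y', InF m P T' → ADat s P T' b c a X' Y' → (T', Y') ∈ 𝓑 := by
      intro T' X' Y' h1 h2
      rw [h𝓑, Finset.mem_filter, Finset.mem_product, Finset.mem_powerset]
      exact ⟨⟨h1.sub, h1.sub h2.hR⟩, h1, X', h2⟩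
    obtain ⟨T0, hT0, a0, c0⟩ := hex a h.conf.ha c h.conf.hc
    have b0 : b ∈ T0 := by
      rcases hno T0 hT0 with h1 | h1 | h1
      · exact absurd h1 a0
      · exact h1
      · exact absurd h1 c0
    obtain ⟨X0, Y0, B0⟩ := per_A h.rot hT0 b0 c0 a0
    obtain ⟨x, hx, hmin⟩ := 𝓑.exists_min_image (fun x => fa x.2) ⟨_, hmem _ _ _ hT0 B0⟩
    rw [h𝓑, Finset.mem_filter] at hx
    obtain ⟨-, h1, X, h2⟩ := hx
    exact ⟨x.1, X, x.2, h1, h2, fun T' X' Y' h3 h4 => hmin _ (hmem _ _ _ h3 h4)⟩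
  refine ⟨Ta, L, R, Tb, X, Y, hTa, A, hTb, B, ?_⟩
  rw [Finset.disjoint_left]
  intro t ta tb
  obtain ⟨p, hp, hpa, hpb, hpc, g1, g2⟩ := per_delta h hTa A hTb B ta tb
  have hLP := hTa.sub A.hL
  have hLb : L ≠ b := fun e => A.bT (e ▸ A.hL)
  have hYP := hTb.sub B.hR
  have hYa : Y ≠ a := fun e => B.cT (e ▸ B.hR)
  rw [hf.hb p hp L hLP hpb hLb, not_lt] at g1
  rw [hf.ha Y hYP p hp hYa hpa, not_lt] at g2
  obtain ⟨T, hT, cT, pT⟩ := hex c h.conf.hc p hp
  by_cases haT : a ∈ T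
  · by_cases hbT : b ∈ T
    · obtain ⟨v, w, Bd⟩ := per_B h hT haT hbT cT
      have hvP := hT.sub Bd.hv
      have hwP := hT.sub Bd.hw
      rcases Bd.b3 p hp pT with h1 | h1
      · rw [hf.hb p hp v hvP hpb Bd.vb] at h1
        have h2 := per_c2 h hTa A hT Bd
        rw [hf.hb L hLP v hvP hLb Bd.vb, not_lt] at h2
        linarith
      · rw [hf.ha w hwP p hp Bd.wa hpa] at h1
        have h2 := per_c2' h hTb B hT Bd
        rw [hf.ha w hwP Y hYP Bd.wa hYa, not_lt] at h2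
        linarith
    · obtain ⟨L', R', A'⟩ := per_A h hT haT hbT cT
      have h1 := A'.a1 p hp pT hpb
      have hL'b : L' ≠ b := fun e => A'.bT (e ▸ A'.hL)
      rw [hf.hb p hp L' (hT.sub A'.hL) hpb hL'b] at h1
      have h2 := hmaxA T L' R' hT A'
      linarith
  · have hbT : b ∈ T := by
      rcases hno T hT with h1 | h1 | h1
      · exact absurd h1 haT
      · exact h1
      · exact absurd h1 cT
    obtain ⟨X', Y', B'⟩ := per_A h.rot hT hbT cT haT
    have h1 := B'.a2 p hp pT hpa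
    have hY'a : Y' ≠ a := fun e => B'.cT (e ▸ B'.hR)
    have h1' : 0 < D s a Y' p := by rw [D_swap']; linarith
    rw [hf.ha Y' (hT.sub B'.hR) p hp hY'a hpa] at h1'
    have h2 := hminB T X' Y' hT B'
    linarith

end count

/-- PER -/
theorem per_false {s : ℝ} {m : ℕ} {P : Finset (ℝ × ℝ)} {a b c : ℝ × ℝ}
    (h : Setting s m P a b c)
    (hex : ∀ p ∈ P, ∀ q ∈ P, ∃ T, InF m P T ∧ p ∉ T ∧ q ∉ T)
    (hno : ∀ T, InF m P T → a ∈ T ∨ b ∈ T ∨ c ∈ T) : False := by
  have hno' : ∀ T, InF m P T → b ∈ T ∨ c ∈ T ∨ a ∈ T := by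
    intro T hT
    rcases hno T hT with h1 | h1 | h1
    · exact Or.inr (Or.inr h1)
    · exact Or.inl h1
    · exact Or.inr (Or.inl h1)
  obtain ⟨Ta, L, R, Tb, X, Y, hTa, A, hTb, B, hd⟩ := per_disj h hex hno
  obtain ⟨Tb', X', Y', Tc, Z, V, hTb', B', hTc, C, hd'⟩ := per_disj h.rot hex hno'
  exact per_two h hTa A hTb B hd hTb' B' hTc C hd'

end Pool.Agent.G5.Tri
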